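import Pool.Agent.Q193.UH.Env
import Pool.Agent.Q193.UH.Witt

/-!
# Non-isomorphic affine Hopf algebras with isomorphic Arens-Michael envelopes

The enveloping algebra `H` of the Lie algebra of polynomial vector fields on the line is an affine
Hopf algebra; its counit induces an isomorphism of the Arens-Michael envelopes of `H` and of the
trivial Hopf algebra `ℂ`, as topological Hopf algebras.
-/

set_option autoImplicit false

open scoped TensorProduct

namespace Pool.Agent.Results.MP_e2f694_an.EnvelopesIsomorphic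

open Pool.Agent.Q193.UH

/-- the inclusion of the scalars -/
noncomputable abbrev sc : ℂ →ₐ[ℂ] U ℂ G := Algebra.ofId ℂ (U ℂ G)

/-- the counit as an algebra map -/
noncomputable abbrev ct : U ℂ G →ₐ[ℂ] ℂ := Bialgebra.counitAlgHom ℂ (U ℂ G)

lemma ct_sc : ct.comp sc = AlgHom.id ℂ ℂ := by
  ext

lemma left_inv (z : Env (U ℂ G)) : envMap sc (envMap ct z) = z := by
  rw [envMap_comp]
  apply envMap_eq_id
  intro p a
  have h := p_counit p.1 p.2 a
  have h2 : (sc.comp ct) a - a = -(a - algebraMap ℂ _ (Coalgebra.counit (R := ℂ) a)) := by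
    rw [neg_sub]
    rfl
  rw [h2, map_neg_eq_map, h]

lemma right_inv (z : Env ℂ) : envMap ct (envMap sc z) = z := by
  rw [envMap_comp]
  apply envMap_eq_id
  intro p a
  rw [ct_sc]
  simp

/-- the isomorphism of envelopes -/
noncomputable def theIso : EnvH (U ℂ G) ≃+* EnvH ℂ :=
  { envMap ct with
    invFun := envMap sc
    left_inv := left_inv
    right_inv := right_inv }

lemma theIso_apply (z : Env (U ℂ G)) : theIso z = envMap ct z := rfl

lemma commutesComul : CommutesComul (H₁ := U ℂ G) (H₂ := ℂ) theIso := by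
  refine ⟨envMap (Algebra.TensorProduct.map ct ct), ⟨envMap_continuous _, fun a b => ?_⟩,
    fun z => ?_⟩
  · change envMap (Algebra.TensorProduct.map ct ct) (env (a ⊗ₜ[ℂ] b)) =
      envMap (Algebra.TensorProduct.includeLeft : ℂ →ₐ[ℂ] ℂ ⊗[ℂ] ℂ) (envMap ct (env a)) *
      envMap (Algebra.TensorProduct.includeRight : ℂ →ₐ[ℂ] ℂ ⊗[ℂ] ℂ) (envMap ct (env b))
    rw [envMap_env, envMap_env, envMap_env, envMap_env, envMap_env]
    have : ∀ u v : ℂ ⊗[ℂ] ℂ, env u * env v = env (u * v) := fun u v =>
      (UniformSpace.Completion.coe_mul (α := AM (ℂ ⊗[ℂ] ℂ)) u v).symm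
    rw [this]
    congr 1
    simp
  · change envMap (Bialgebra.comulAlgHom ℂ ℂ) (envMap ct z) =
      envMap (Algebra.TensorProduct.map ct ct) (envMap (Bialgebra.comulAlgHom ℂ (U ℂ G)) z)
    rw [envMap_comp, envMap_comp]
    congr 2
    apply U_ext
    intro d
    change Coalgebra.comul (R := ℂ) (Coalgebra.counit (R := ℂ) (io ℂ G d)) =
      Algebra.TensorProduct.map ct ct (comulU ℂ G (io ℂ G d))
    rw [comulU_io, counit_eq, counitU_io, map_zero, map_add, Algebra.TensorProduct.map_tmul,
      Algebra.TensorProduct.map_tmul]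
    have h0 : ct (io ℂ G d) = 0 := counitU_io ℂ G d
    rw [h0, TensorProduct.zero_tmul, TensorProduct.tmul_zero, add_zero]

lemma commutesCounit (z : EnvH (U ℂ G)) : counitHat ℂ (theIso z) = counitHat (U ℂ G) z := by
  have := env_ext (f := fun z => counitHat ℂ (envMap ct z)) (g := counitHat (U ℂ G))
    ((counitHat_cont ℂ).comp (envMap_continuous ct)) (counitHat_cont _) (fun a => by
      have h1 := counitHat_env ℂ (ct a)
      have h2 := counitHat_env (U ℂ G) a
      unfold envH at h1 h2
      rw [envMap_env, h1, h2]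
      rfl)
  exact congrFun this z

lemma commutesAntipode (z : EnvH (U ℂ G)) :
    theIso (antipodeHat (U ℂ G) z) = antipodeHat ℂ (theIso z) := by
  have := env_ext (f := fun z => envMap ct (antipodeHat (U ℂ G) z))
    (g := fun z => antipodeHat ℂ (envMap ct z))
    ((envMap_continuous ct).comp (antipodeHat_cont _))
    ((antipodeHat_cont ℂ).comp (envMap_continuous ct)) (fun a => by
      have h1 := antipodeHat_env ℂ (ct a)
      have h2 := antipodeHat_env (U ℂ G) a
      unfold envH at h1 h2
      rw [envMap_env, h1, h2, envMap_env]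
      congr 1
      exact HopfAlgebra.counit_antipode a)
  exact congrFun this z

lemma isHopfIso : IsHopfIso (H₁ := U ℂ G) (H₂ := ℂ) theIso := by
  refine ⟨envMap_continuous ct, envMap_continuous sc, fun c => ?_, commutesComul, commutesCounit,
    commutesAntipode⟩
  change envMap ct (env (algebraMap ℂ (U ℂ G) c)) = env (algebraMap ℂ ℂ c)
  rw [envMap_env]
  congr 1
  exact ct.commutes c

/-- Negative answer to Q1: there are finitely generated complex Hopf algebras `H₁`, `H₂` which are
not isomorphic (not even as bialgebras) although their Arens-Michael envelopes are isomorphic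
as topological Hopf algebras. -/
theorem result : ∃ (H₁ H₂ : Type) (_ : Ring H₁) (_ : HopfAlgebra ℂ H₁) (_ : Ring H₂)
    (_ : HopfAlgebra ℂ H₂), Algebra.FiniteType ℂ H₁ ∧ Algebra.FiniteType ℂ H₂ ∧
      (∃ φ : EnvH H₁ ≃+* EnvH H₂, IsHopfIso φ) ∧ ¬ Nonempty (H₁ ≃ₐc[ℂ] H₂) := by
  refine ⟨U ℂ G, ℂ, inferInstance, inferInstance, inferInstance, inferInstance, finiteType,
    inferInstance, ⟨theIso, isHopfIso⟩, ?_⟩
  rintro ⟨e⟩
  have h : x 1 * x 2 = x 2 * x 1 := by
    apply e.injective
    rw [map_mul, map_mul, mul_comm]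
  have h2 := x_one 1
  rw [h, sub_self] at h2
  simp at h2
  exact x_ne 2 h2.symm

end Pool.Agent.Results.MP_e2f694_an.EnvelopesIsomorphic
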